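import Mathlib

/-!
# A resolution checker for the kernel

Clauses are pairs of bit masks `(p, n)`: `p` is the set of the variables which occur positively, `n` the set of those
which occur negatively. A certificate is a stream of clause numbers, packed into a natural number in base `2 ^ 16`:
a chain `h₁ h₂ … h_m 0` means: resolve the clause number `h₁` with the clause number `h₂`, the result with `h₃`, …, and
append the result to the data base. Everything is done with the arithmetic of the kernel.
-/

set_option autoImplicit false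

namespace Pool.Agent.K7.H67.KC

/-- the clause `(p, n)` is true under `σ` -/
def Sat (σ : ℕ → Bool) (p n : ℕ) : Prop :=
  ∃ i, (p.testBit i = true ∧ σ i = true) ∨ (n.testBit i = true ∧ σ i = false)

/-- binary trees of clauses; the children of the number `i` have the numbers `2 i + 1` and `2 i + 2` -/
inductive T : Type
  | e : T
  | n (p q : ℕ) (l r : T) : T

/-- all clauses of the tree are true and are not tautologies -/
def T.Ok (σ : ℕ → Bool) : T → Prop
  | .e => True
  | .n p q l r => (Sat σ p q ∧ p &&& q = 0) ∧ l.Ok σ ∧ r.Ok σ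

/-- `x` for `false`, `y` for `true` -/
def bc {α : Type} (x y : α) (b : Bool) : α := @Bool.rec (fun _ => α) x y b

/-- look up the clause number `i`, continuation passing -/
noncomputable def T.get {α : Type} (k : ℕ → ℕ → α) (d : α) (t : T) : ℕ → α :=
  T.rec (motive := fun _ => ℕ → α) (fun _ => d)
    (fun p q _ _ ihl ihr i =>
      Bool.rec
        (Bool.rec (ihr (Nat.sub (Nat.shiftRight i 1) 1)) (ihl (Nat.shiftRight i 1)) (Nat.beq (Nat.land i 1) 1))
        (k p q) (Nat.beq i 0)) t

/-- insert a clause as number `i` (at the border of the tree) -/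
noncomputable def T.ins (a b : ℕ) (t : T) : ℕ → T :=
  T.rec (motive := fun _ => ℕ → T) (fun _ => T.n a b T.e T.e)
    (fun p q l r ihl ihr i =>
      Bool.rec
        (Bool.rec (T.n p q l (ihr (Nat.sub (Nat.shiftRight i 1) 1))) (T.n p q (ihl (Nat.shiftRight i 1)) r)
          (Nat.beq (Nat.land i 1) 1))
        (T.n a b l r) (Nat.beq i 0)) t

theorem beq_false {a b : ℕ} (h : a ≠ b) : Nat.beq a b = false := by
  cases hh : Nat.beq a b with
  | false => rfl
  | true => exact absurd (Nat.eq_of_beq_eq_true hh) h

theorem T.get_n {α : Type} (k : ℕ → ℕ → α) (d : α) (p q : ℕ) (l r : T) (i : ℕ) :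
    T.get k d (T.n p q l r) i =
      if i = 0 then k p q else if Nat.land i 1 = 1 then l.get k d (i >>> 1) else r.get k d ((i >>> 1) - 1) := by
  show bc (bc (T.get k d r (Nat.sub (Nat.shiftRight i 1) 1)) (T.get k d l (Nat.shiftRight i 1)) (Nat.beq (Nat.land i 1) 1))
        (k p q) (Nat.beq i 0) = _
  rcases Nat.eq_zero_or_pos i with h | h
  · subst h; rfl
  · have h1 : Nat.beq i 0 = false := beq_false (by omega)
    rw [h1, if_neg (by omega)]
    by_cases h2 : Nat.land i 1 = 1
    · rw [if_pos h2, h2]; rfl
    · rw [if_neg h2]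
      have h3 : Nat.beq (Nat.land i 1) 1 = false := beq_false h2
      rw [h3]; rfl

theorem T.ins_n (a b : ℕ) (p q : ℕ) (l r : T) (i : ℕ) :
    T.ins a b (T.n p q l r) i =
      if i = 0 then T.n a b l r else if Nat.land i 1 = 1 then T.n p q (l.ins a b (i >>> 1)) r
        else T.n p q l (r.ins a b ((i >>> 1) - 1)) := by
  show bc (bc (T.n p q l (T.ins a b r (Nat.sub (Nat.shiftRight i 1) 1))) (T.n p q (T.ins a b l (Nat.shiftRight i 1)) r)
        (Nat.beq (Nat.land i 1) 1)) (T.n a b l r) (Nat.beq i 0) = _
  rcases Nat.eq_zero_or_pos i with h | h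
  · subst h; rfl
  · have h1 : Nat.beq i 0 = false := beq_false (by omega)
    rw [h1, if_neg (by omega)]
    by_cases h2 : Nat.land i 1 = 1
    · rw [if_pos h2, h2]; rfl
    · rw [if_neg h2]
      have h3 : Nat.beq (Nat.land i 1) 1 = false := beq_false h2
      rw [h3]; rfl

theorem T.get_ok {σ : ℕ → Bool} (P : Prop) (k : ℕ → ℕ → Bool) (hk : ∀ p q, Sat σ p q → p &&& q = 0 → k p q = true → P)
    (t : T) : t.Ok σ → ∀ i, T.get k false t i = true → P := by
  induction t with
  | e => intro _ i h; exact absurd h (by simp [T.get])
  | n p q l r ihl ihr =>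
    intro ht i h
    rw [T.get_n] at h
    split_ifs at h with h1 h2
    · exact hk p q ht.1.1 ht.1.2 h
    · exact ihl ht.2.1 _ h
    · exact ihr ht.2.2 _ h

theorem T.ins_ok {σ : ℕ → Bool} {a b : ℕ} (hs : Sat σ a b) (hab : a &&& b = 0) (t : T) : t.Ok σ → ∀ i, (t.ins a b i).Ok σ := by
  induction t with
  | e => intro _ i; exact ⟨⟨hs, hab⟩, trivial, trivial⟩
  | n p q l r ihl ihr =>
    intro ht i
    rw [T.ins_n]
    split_ifs with h1 h2
    · exact ⟨⟨hs, hab⟩, ht.2⟩
    · exact ⟨ht.1, ihl ht.2.1 _, ht.2.2⟩
    · exact ⟨ht.1, ht.2.1, ihr ht.2.2 _⟩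

/-- resolution of two clauses which are not tautologies -/
theorem resolve {σ : ℕ → Bool} {rp rn hp hn x : ℕ} (h1 : Sat σ rp rn) (h1' : rp &&& rn = 0) (h2 : Sat σ hp hn)
    (h2' : hp &&& hn = 0) (hx : x = (rp &&& hn) ||| (rn &&& hp)) (hx1 : x &&& (x - 1) = 0) :
    Sat σ ((rp ||| hp) ^^^ x) ((rn ||| hn) ^^^ x) ∧ ((rp ||| hp) ^^^ x) &&& ((rn ||| hn) ^^^ x) = 0 := by
  have hxb : ∀ i, x.testBit i = ((rp.testBit i && hn.testBit i) || (rn.testBit i && hp.testBit i)) := by
    intro i; rw [hx]; simp
  have e1 : ∀ i, (rp.testBit i && rn.testBit i) = false := by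
    intro i
    have := congrArg (fun y => Nat.testBit y i) h1'
    simpa using this
  have e2 : ∀ i, (hp.testBit i && hn.testBit i) = false := by
    intro i
    have := congrArg (fun y => Nat.testBit y i) h2'
    simpa using this
  -- uniqueness of the bit of x
  have hu : ∀ i j, x.testBit i = true → x.testBit j = true → i = j := by
    intro i j hi hj
    by_contra hne
    -- x > 0
    have hx0 : x ≠ 0 := by
      rintro rfl
      simp at hi
    -- lowest bit argument: wlog i < j
    have key : ∀ i j, i < j → x.testBit i = true → x.testBit j = true → False := by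
      intro i j hij hi hj
      have h3 : (x - 1).testBit j = true := by
        have hmod : 1 ≤ x % 2 ^ j := by
          rcases Nat.eq_zero_or_pos (x % 2 ^ j) with h0 | h0
          · exfalso
            have h4 : (x % 2 ^ j).testBit i = true := by
              rw [Nat.testBit_mod_two_pow]
              simp [hij, hi]
            rw [h0] at h4
            simp at h4
          · exact h0
        rw [Nat.testBit_eq_decide_div_mod_eq] at hj ⊢
        have h5 : (x - 1) / 2 ^ j = x / 2 ^ j := by
          have h6 := Nat.div_add_mod x (2 ^ j)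
          have h7 : x - 1 = (x % 2 ^ j - 1) + 2 ^ j * (x / 2 ^ j) := by omega
          rw [h7, Nat.add_mul_div_left _ _ (by positivity), Nat.div_eq_of_lt, zero_add]
          have := Nat.mod_lt x (show 0 < 2 ^ j by positivity)
          omega
        rw [h5]; exact hj
      have h8 := congrArg (fun y => Nat.testBit y j) hx1
      simp [hj, h3] at h8
    rcases Nat.lt_or_gt_of_ne hne with h | h
    · exact key i j h hi hj
    · exact key j i h hj hi
  constructor
  · by_contra hcon
    unfold Sat at hcon
    push Not at hcon
    have c1 : ∀ i, ((rp.testBit i || hp.testBit i) ^^ x.testBit i) = true → σ i = false := by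
      intro i hi
      have := (hcon i).1 (by simpa using hi)
      simpa using this
    have c2 : ∀ i, ((rn.testBit i || hn.testBit i) ^^ x.testBit i) = true → σ i = true := by
      intro i hi
      have := (hcon i).2 (by simpa using hi)
      simpa using this
    obtain ⟨i, hi⟩ := h1
    obtain ⟨j, hj⟩ := h2
    -- the true literal of each clause is at a bit of x
    have b1 : x.testBit i = true := by
      have k1 := c1 i; have k2 := c2 i
      rcases hi with ⟨ha, hb⟩ | ⟨ha, hb⟩
      · rw [ha, hb] at k1
        revert k1; cases x.testBit i <;> simp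
      · rw [ha, hb] at k2
        revert k2; cases x.testBit i <;> simp
    have b2 : x.testBit j = true := by
      have k1 := c1 j; have k2 := c2 j
      rcases hj with ⟨ha, hb⟩ | ⟨ha, hb⟩
      · rw [ha, hb] at k1
        revert k1; cases x.testBit j <;> cases rp.testBit j <;> simp
      · rw [ha, hb] at k2
        revert k2; cases x.testBit j <;> cases rn.testBit j <;> simp
    have hij := hu i j b1 b2
    subst hij
    have h3 := hxb i
    rw [b1] at h3
    have h4 := e1 i
    have h5 := e2 i
    clear hu hxb e1 e2 c1 c2 hcon hx hx1 h1' h2' b1 b2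
    rcases hi with ⟨ha, hb⟩ | ⟨ha, hb⟩ <;> rcases hj with ⟨hc, hd⟩ | ⟨hc, hd⟩ <;> rw [hb] at hd <;> rw [ha] at h3 h4 <;>
      rw [hc] at h3 h5 <;> revert h3 h4 h5 hd <;> cases rp.testBit i <;> cases rn.testBit i <;> cases hp.testBit i <;>
      cases hn.testBit i <;> simp
  · apply Nat.eq_of_testBit_eq
    intro i
    have h3 := hxb i
    have h4 := e1 i
    have h5 := e2 i
    simp only [Nat.testBit_and, Nat.testBit_xor, Nat.testBit_or, Nat.zero_testBit]
    revert h3 h4 h5
    cases x.testBit i <;> cases rp.testBit i <;> cases rn.testBit i <;> cases hp.testBit i <;> cases hn.testBit i <;> simp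

/-- run the certificate: `f` fuel, `s` stream, `b` fresh chain, `(rp, rn)` current clause, `t` data base, `i` next number -/
noncomputable def run (f : ℕ) : ℕ → Bool → ℕ → ℕ → T → ℕ → Bool :=
  Nat.rec (motive := fun _ => ℕ → Bool → ℕ → ℕ → T → ℕ → Bool) (fun _ _ _ _ _ _ => false)
    (fun _ ih s b rp rn t i =>
      Bool.rec
        -- a hint
        (T.get (fun hp hn =>
          Bool.rec
            ((fun x => Bool.rec false
                (ih (Nat.shiftRight s 16) false (Nat.xor (Nat.lor rp hp) x) (Nat.xor (Nat.lor rn hn) x) t i)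
                (Nat.beq (Nat.land x (Nat.sub x 1)) 0))
              (Nat.lor (Nat.land rp hn) (Nat.land rn hp)))
            (ih (Nat.shiftRight s 16) false hp hn t i) b)
          false t (Nat.sub (Nat.land s 65535) 1))
        -- end of a chain
        (Bool.rec
          (Bool.rec (ih (Nat.shiftRight s 16) true 0 0 (T.ins rp rn t i) (Nat.succ i)) true (Nat.beq (Nat.lor rp rn) 0))
          false b)
        (Nat.beq (Nat.land s 65535) 0)) f

theorem run_sound {σ : ℕ → Bool} (f : ℕ) : ∀ (s : ℕ) (b : Bool) (rp rn : ℕ) (t : T) (i : ℕ), t.Ok σ →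
    (b = false → Sat σ rp rn ∧ rp &&& rn = 0) → run f s b rp rn t i = true → False := by
  induction f with
  | zero => intro s b rp rn t i _ _ h; exact absurd h (by simp [run])
  | succ f ih =>
    intro s b rp rn t i ht hb h
    change bc
        (T.get (fun hp hn =>
          bc
            ((fun x => bc false
                (run f (Nat.shiftRight s 16) false (Nat.xor (Nat.lor rp hp) x) (Nat.xor (Nat.lor rn hn) x) t i)
                (Nat.beq (Nat.land x (Nat.sub x 1)) 0))
              (Nat.lor (Nat.land rp hn) (Nat.land rn hp)))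
            (run f (Nat.shiftRight s 16) false hp hn t i) b)
          false t (Nat.sub (Nat.land s 65535) 1))
        (bc
          (bc (run f (Nat.shiftRight s 16) true 0 0 (T.ins rp rn t i) (Nat.succ i)) true (Nat.beq (Nat.lor rp rn) 0))
          false b)
        (Nat.beq (Nat.land s 65535) 0) = true at h
    cases hh : Nat.beq (Nat.land s 65535) 0 with
    | false =>
      rw [hh] at h
      change T.get _ false t _ = true at h
      refine T.get_ok False _ ?_ t ht _ h
      intro hp hn h1 h2 h3
      cases b with
      | true =>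
        exact ih _ false hp hn t i ht (fun _ => ⟨h1, h2⟩) h3
      | false =>
        obtain ⟨h4, h5⟩ := hb rfl
        obtain ⟨x, hx⟩ : ∃ x, x = Nat.lor (Nat.land rp hn) (Nat.land rn hp) := ⟨_, rfl⟩
        change bc false
                (run f (Nat.shiftRight s 16) false (Nat.xor (Nat.lor rp hp) (Nat.lor (Nat.land rp hn) (Nat.land rn hp)))
                  (Nat.xor (Nat.lor rn hn) (Nat.lor (Nat.land rp hn) (Nat.land rn hp))) t i)
                (Nat.beq (Nat.land (Nat.lor (Nat.land rp hn) (Nat.land rn hp)) (Nat.sub (Nat.lor (Nat.land rp hn) (Nat.land rn hp)) 1)) 0) = true at h3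
        rw [← hx] at h3
        cases h6 : Nat.beq (Nat.land x (Nat.sub x 1)) 0 with
        | false => rw [h6] at h3; exact Bool.noConfusion (show false = true from h3)
        | true =>
          rw [h6] at h3
          have h7 : x &&& (x - 1) = 0 := Nat.eq_of_beq_eq_true h6
          have h8 := resolve h4 h5 h1 h2 hx h7
          exact ih _ false _ _ t i ht (fun _ => h8) h3
    | true =>
      rw [hh] at h
      cases b with
      | true => exact Bool.noConfusion (show false = true from h)
      | false =>
        obtain ⟨h4, h5⟩ := hb rfl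
        change bc (run f (Nat.shiftRight s 16) true 0 0 (T.ins rp rn t i) (Nat.succ i)) true (Nat.beq (Nat.lor rp rn) 0) = true at h
        cases h6 : Nat.beq (Nat.lor rp rn) 0 with
        | true =>
          have h7 : rp ||| rn = 0 := Nat.eq_of_beq_eq_true h6
          obtain ⟨j, hj⟩ := h4
          have h8 := congrArg (fun y => Nat.testBit y j) h7
          simp only [Nat.testBit_or, Nat.zero_testBit, Bool.or_eq_false_iff] at h8
          rcases hj with ⟨ha, _⟩ | ⟨ha, _⟩
          · rw [h8.1] at ha; exact absurd ha (by simp)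
          · rw [h8.2] at ha; exact absurd ha (by simp)
        | false =>
          rw [h6] at h
          exact ih _ true 0 0 _ _ (T.ins_ok h4 h5 t ht i) (fun hf => absurd hf (by simp)) h

end Pool.Agent.K7.H67.KC
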